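import Pool.Agent.Work.MP_9bb3e3_co.Final

/-!
# MP_9bb3e3_co: the volume of the metric polytope at least doubles from `n` to `n + 1`
-/

namespace Pool.Agent.Results.MP_9bb3e3_co.VolumeMonotone

open MeasureTheory Set Pool.Agent.Work.MP_9bb3e3_co

/-- The coordinates: unordered pairs `{i, j}` of distinct elements of `{0, …, n-1}`. -/
abbrev Pairs (n : ℕ) := {e : Sym2 (Fin n) // ¬ e.IsDiag}

/-- The pair `{i, j}` of distinct elements, as a coordinate. -/
def pair {n : ℕ} (i j : Fin n) (h : i ≠ j) : Pairs n := ⟨s(i, j), by simpa using h⟩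

/-- The metric polytope: all vectors `(d_{ij})` indexed by the unordered pairs of distinct elements
of an `n`-element set with `0 < d_{ij} ≤ 2` and `d_{ij} ≤ d_{ik} + d_{kj}` for all distinct
`i, j, k`. -/
def metricPolytope (n : ℕ) : Set (Pairs n → ℝ) :=
  {d | (∀ e, 0 < d e ∧ d e ≤ 2) ∧
    ∀ (i j k : Fin n) (hij : i ≠ j) (hik : i ≠ k) (hkj : k ≠ j),
      d (pair i j hij) ≤ d (pair i k hik) + d (pair k j hkj)}

lemma metricPolytope_subset (n : ℕ) : metricPolytope n ⊆ K (Fin n) := by
  rintro d ⟨h1, h2⟩
  refine ⟨?_, ?_⟩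
  · intro u v huv
    rw [D_of_ne _ huv]
    exact ⟨(h1 _).1.le, (h1 _).2⟩
  · intro u v w huv huw hvw
    rw [D_comm d v w, D_of_ne _ huv, D_of_ne _ huw, D_of_ne _ hvw.symm]
    exact h2 u v w huv huw hvw.symm

lemma subset_metricPolytope (n : ℕ) :
    K (Fin n) ⊆ metricPolytope n ∪ ⋃ e : Pairs n, {d | d e = 0} := by
  intro d hd
  by_cases h : ∃ e, d e = 0
  · right
    rw [mem_iUnion]
    exact h
  · left
    push Not at h
    refine ⟨?_, ?_⟩
    · rintro ⟨e, he⟩
      induction e using Sym2.ind with
      | _ u v =>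
        have huv : u ≠ v := by simpa using he
        have h2 := hd.1 u v huv
        rw [D_of_ne _ huv] at h2
        exact ⟨lt_of_le_of_ne h2.1 (Ne.symm (h _)), h2.2⟩
    · intro i j k hij hik hkj
      have h2 := hd.2 i j k hij hik hkj.symm
      rw [D_comm d j k, D_of_ne _ hij, D_of_ne _ hik, D_of_ne _ hkj] at h2
      exact h2

lemma volume_metricPolytope (n : ℕ) : volume (metricPolytope n) = vol n := by
  refine le_antisymm (measure_mono (metricPolytope_subset n)) ?_
  calc vol n ≤ volume (metricPolytope n ∪ ⋃ e : Pairs n, {d : Pairs n → ℝ | d e = 0}) :=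
        measure_mono (subset_metricPolytope n)
    _ ≤ volume (metricPolytope n) + volume (⋃ e : Pairs n, {d : Pairs n → ℝ | d e = 0}) :=
        measure_union_le _ _
    _ = volume (metricPolytope n) := by
        have : volume (⋃ e : Pairs n, {d : Pairs n → ℝ | d e = 0}) = 0 := by
          rw [measure_iUnion_null_iff]
          intro e
          exact volume_level_set (LinearMap.proj e) ⟨fun _ => 1, by simp⟩ 0
        rw [this, add_zero]

/-- For every `n ≥ 2` the volume of the metric polytope on `n + 1` points is at least the volume of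
the metric polytope on `n` points; it is even at least twice as large. -/
theorem result : ∀ n : ℕ, 2 ≤ n →
    volume (metricPolytope n) ≤ volume (metricPolytope (n + 1)) ∧
      2 * volume (metricPolytope n) ≤ volume (metricPolytope (n + 1)) := by
  intro n hn
  rw [volume_metricPolytope, volume_metricPolytope]
  have h := two_mul_vol_le n (by omega)
  refine ⟨le_trans ?_ h, h⟩
  calc vol n = 1 * vol n := (one_mul _).symm
    _ ≤ 2 * vol n := by gcongr; norm_num

end Pool.Agent.Results.MP_9bb3e3_co.VolumeMonotone
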